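import Pool.Agent.Helper60.MI.Elm

/-!
# Base points of the support points of a mirror symmetric body (project MP_a2630c_MI)
-/

open MeasureTheory Set Metric Real Filter Topology
open scoped RealInnerProductSpace ENNReal
open Pool.Agent.Helper16.Buoy (E cap IsEllipsoid Homothetic buoyancyBody)
open Pool.Agent.Helper73.HV (supp)
open Pool.Agent.Helper73.LR (CB vol GG Sol aff)
open Pool.Agent.Helper73.SY (CS Dat sg)
open Pool.Agent.Helper79.SY (WW AA cut sl inner_e_W norm_sl closure_int)

namespace Pool.Agent.Helper60.MI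

open Pool.Agent.Helper73.MI

variable {n : ℕ} {e : E n}

theorem inner_W_e (y : WW e) : inner ℝ (y : E n) e = (0 : ℝ) := by
  rw [real_inner_comm, inner_e_W]

theorem inner_ev (he : ‖e‖ = 1) (v : WW e) (s : ℝ) (y : WW e) :
    inner ℝ (e + (v : E n)) (s • e + (y : E n)) = s + (inner ℝ v y : ℝ) := by
  rw [inner_add_left, inner_sl he, inner_add_right, inner_smul_right, inner_W_e,
    Submodule.coe_inner]
  ring

theorem inner_aw (he : ‖e‖ = 1) (a : ℝ) (w : WW e) (s : ℝ) (y : WW e) :
    inner ℝ (a • e + (w : E n)) (s • e + (y : E n)) = a * s + (inner ℝ w y : ℝ) := by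
  rw [inner_add_left, inner_smul_left, inner_sl he, inner_add_right, inner_smul_right, inner_W_e,
    Submodule.coe_inner]
  simp

theorem ev_ne (he : ‖e‖ = 1) (v : WW e) : e + (v : E n) ≠ 0 := by
  intro h
  have h1 : inner ℝ e (e + (v : E n)) = (0 : ℝ) := by rw [h, inner_zero_right]
  rw [inner_add_right, inner_e_W, real_inner_self_eq_norm_sq, he] at h1
  norm_num at h1

/-- A supporting hyperplane at a point of a convex body which is not interior. -/
theorem exists_normal {K : Set (E n)} (hK : CB K) {x : E n} (hx : x ∉ interior K) :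
    ∃ u : E n, u ≠ 0 ∧ ∀ z ∈ K, (inner ℝ u z : ℝ) ≤ inner ℝ u x := by
  obtain ⟨f, hf⟩ := geometric_hahn_banach_open_point hK.conv.interior isOpen_interior hx
  obtain ⟨z0, hz0⟩ := hK.int
  refine ⟨(InnerProductSpace.toDual ℝ (E n)).symm f, ?_, ?_⟩
  · intro h
    have h1 := hf z0 hz0
    have h2 : f = 0 := by
      have := congrArg (InnerProductSpace.toDual ℝ (E n)) h
      simpa using this
    rw [h2] at h1
    simp at h1
  · intro z hz
    rw [InnerProductSpace.toDual_symm_apply, InnerProductSpace.toDual_symm_apply]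
    have h1 : K ⊆ {z | f z ≤ f x} := by
      rw [← closure_int hK]
      refine closure_minimal (fun z hz => (hf z hz).le) ?_
      exact isClosed_le f.continuous continuous_const
    exact h1 hz

theorem bas (hgeo : S_geo) : S_bas := by
  intro n K δ lam X t e hD he hK
  obtain ⟨g1, g2, g3, g4, g5, g6, g7, g8, g9⟩ := hgeo hD he hK
  have hcb := hD.cs.cb
  have hle : ∀ (v : WW e) (s : ℝ) (y : WW e), s • e + (y : E n) ∈ K →
      s + inner ℝ v y ≤ supp K (e + (v : E n)) := by
    intro v s y h
    rw [← inner_ev he v s y]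
    exact Pool.Agent.Helper65.LR.le_supp hcb.comp h _
  have hX : ∀ v, xx X e v • e + (YY X e v : E n) = X (e + (v : E n)) := fun v => decomp he _
  have hXK : ∀ v, xx X e v • e + (YY X e v : E n) ∈ K := by
    intro v
    rw [hX]
    exact hD.Xmem _ (ev_ne he v)
  have hXs : ∀ v, xx X e v + inner ℝ v (YY X e v) = supp K (e + (v : E n)) := by
    intro v
    rw [← inner_ev he, hX]
    exact hD.Xsup _ (ev_ne he v)
  have hR : ∀ v, RR K e (YY X e v) • e + (YY X e v : E n) ∈ K := fun v =>
    (g1 _ _).2 ⟨⟨_, hXK v⟩, le_rfl⟩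
  have hneg : ∀ v, (-xx X e v) • e + (YY X e v : E n) ∈ K := fun v =>
    (g1 _ _).2 ⟨⟨_, hXK v⟩, by rw [neg_sq]; exact ((g1 _ _).1 (hXK v)).2⟩
  have hx0 : ∀ v, 0 ≤ xx X e v := by
    intro v
    have h1 := hle v _ _ (hneg v)
    have h2 := hXs v
    linarith
  have hxR : ∀ v, xx X e v = RR K e (YY X e v) := by
    intro v
    apply le_antisymm
    · have h1 := ((g1 _ _).1 (hXK v)).2
      unfold FF at h1
      exact (abs_le_of_sq_le_sq' h1 (g3 _)).2
    · have h1 := hle v _ _ (hR v)
      have h2 := hXs v
      linarith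
  have hPD : ∀ v, YY X e v ∈ PD K e := by
    intro v
    by_contra h
    have h1 := g8 _ h
    unfold FF at h1
    rw [← hxR] at h1
    have h2 : xx X e v = 0 := by
      rcases pow_eq_zero_iff (two_ne_zero) |>.1 h1 with h3
      exact h3
    -- `x` is also the support point with normal `-e + v`
    have h3 : (YY X e v : E n) = X (e + (v : E n)) := by
      have := hX v
      rw [h2, zero_smul, zero_add] at this
      exact this
    have h4 : supp K (-e + (v : E n)) = inner ℝ (-e + (v : E n)) (X (e + (v : E n))) := by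
      have hne : K.Nonempty := ⟨_, hXK v⟩
      apply le_antisymm
      · obtain ⟨z, hz, hzu⟩ := (Pool.Agent.Helper65.LR.supp_greatest hcb.comp hne
          (-e + (v : E n))).1
        rw [← hzu]
        show (inner ℝ (-e + (v : E n)) z : ℝ) ≤ _
        have k1 : (-(inner ℝ e z : ℝ)) • e + (pj e z : E n) ∈ K := by
          have k2 : (inner ℝ e z : ℝ) • e + (pj e z : E n) ∈ K := by rw [decomp he]; exact hz
          exact (g1 _ _).2 ⟨⟨_, k2⟩, by rw [neg_sq]; exact ((g1 _ _).1 k2).2⟩
        have k3 := hle v _ _ k1
        rw [← hXs, h2, zero_add] at k3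
        have k4 : inner ℝ (-e + (v : E n)) z = -(inner ℝ e z : ℝ) + inner ℝ v (pj e z) := by
          conv_lhs => rw [← decomp he z]
          have := inner_aw he (-1) v (inner ℝ e z) (pj e z)
          rw [neg_one_smul] at this
          rw [this]
          ring
        have k5 : inner ℝ (-e + (v : E n)) (X (e + (v : E n))) = (inner ℝ v (YY X e v) : ℝ) := by
          rw [← h3, inner_add_left, inner_neg_left, inner_e_W, Submodule.coe_inner]
          ring
        rw [k4, k5]
        exact k3
      · exact Pool.Agent.Helper65.LR.le_supp hcb.comp (hD.Xmem _ (ev_ne he v)) _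
    have hne' : -e + (v : E n) ≠ 0 := by
      intro h
      have h1 : inner ℝ e (-e + (v : E n)) = (0 : ℝ) := by rw [h, inner_zero_right]
      rw [inner_add_right, inner_e_W, inner_neg_right, real_inner_self_eq_norm_sq, he] at h1
      norm_num at h1
    obtain ⟨s, hs, hs2⟩ := hD.nor (e + (v : E n)) (-e + (v : E n)) (X (e + (v : E n)))
      (ev_ne he v) hne' (hD.Xmem _ (ev_ne he v)) (hD.Xsup _ (ev_ne he v)) h4.symm
    have h5 := congrArg (fun z => (inner ℝ e z : ℝ)) hs2
    simp only [inner_add_right, inner_neg_right, inner_smul_right, inner_e_W,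
      real_inner_self_eq_norm_sq, he] at h5
    norm_num at h5
    linarith
  have hxp : ∀ v, 0 < xx X e v := by
    intro v
    have h1 := g7 _ (hPD v)
    unfold FF at h1
    rw [hxR]
    exact lt_of_le_of_ne (g3 _) fun h => by rw [← h] at h1; norm_num at h1
  refine ⟨hPD, ?_, ?_, hxp, ?_, ?_, ?_, ?_⟩
  · intro v v' h
    have h1 : X (e + (v : E n)) = X (e + (v' : E n)) := by
      rw [← hX, ← hX, hxR, hxR, h]
    obtain ⟨s, hs, hs2⟩ := hD.nor (e + (v : E n)) (e + (v' : E n)) (X (e + (v : E n)))
      (ev_ne he v) (ev_ne he v') (hD.Xmem _ (ev_ne he v)) (hD.Xsup _ (ev_ne he v))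
      (by rw [h1]; exact hD.Xsup _ (ev_ne he v'))
    have h5 := congrArg (fun z => (inner ℝ e z : ℝ)) hs2
    simp only [inner_add_right, inner_smul_right, inner_e_W, real_inner_self_eq_norm_sq, he] at h5
    have h6 : s = 1 := by linarith
    rw [h6, one_smul] at hs2
    exact Subtype.ext (add_left_cancel hs2).symm
  · intro y hy
    have hFy := g7 y hy
    have hyK : ∃ s' : ℝ, s' • e + (y : E n) ∈ K := by
      have h0 : y ∈ {y : WW e | ∃ s : ℝ, s • e + (y : E n) ∈ K} := interior_subset hy
      exact h0
    have hRK : RR K e y • e + (y : E n) ∈ K := (g1 _ _).2 ⟨hyK, le_rfl⟩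
    have hRn : (-RR K e y) • e + (y : E n) ∈ K := (g1 _ _).2 ⟨hyK, by rw [neg_sq]; exact le_rfl⟩
    have hRp : 0 < RR K e y := by
      unfold FF at hFy
      exact lt_of_le_of_ne (g3 _) fun h => by rw [← h] at hFy; norm_num at hFy
    have hni : RR K e y • e + (y : E n) ∉ interior K := by
      intro h
      have := ((g2 _ _).1 h).2
      exact lt_irrefl _ this
    obtain ⟨u, hu, hsup⟩ := exists_normal hcb hni
    set a : ℝ := inner ℝ e u with ha
    set w : WW e := pj e u with hw
    have hu' : a • e + (w : E n) = u := decomp he u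
    have ha0 : 0 ≤ a := by
      have h1 := hsup _ hRn
      rw [← hu', inner_aw he, inner_aw he] at h1
      nlinarith
    have hap : 0 < a := by
      rcases ha0.lt_or_eq with h | h
      · exact h
      · exfalso
        rw [← h, zero_smul, zero_add] at hu'
        have hwn : w ≠ 0 := by
          intro h0
          rw [h0] at hu'
          exact hu hu'.symm
        have hev : ∀ᶠ ε in 𝓝[>] (0 : ℝ), y + ε • w ∈ PD K e := by
          have h1 : Tendsto (fun ε : ℝ => y + ε • w) (𝓝[>] 0) (𝓝 (y + (0 : ℝ) • w)) := by
            apply Tendsto.mono_left _ nhdsWithin_le_nhds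
            exact (continuous_const.add (continuous_id.smul continuous_const)).tendsto 0
          rw [zero_smul, add_zero] at h1
          exact h1 (isOpen_interior.mem_nhds hy)
        obtain ⟨ε, hε, hε0⟩ := (hev.and self_mem_nhdsWithin).exists
        obtain ⟨s, hs⟩ := interior_subset hε
        have h2 := hsup _ hs
        have h3 : u = (0 : ℝ) • e + (w : E n) := by rw [zero_smul, zero_add, hu']
        rw [h3, inner_aw he, inner_aw he, inner_add_right, inner_smul_right,
          real_inner_self_eq_norm_sq] at h2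
        have h4 : 0 < ‖w‖ ^ 2 := by positivity
        have h5 : (0 : ℝ) < ε := hε0
        nlinarith
    refine ⟨a⁻¹ • w, ?_⟩
    set v : WW e := a⁻¹ • w with hv
    have huv : u = a • (e + (v : E n)) := by
      rw [← hu', smul_add, hv, Submodule.coe_smul, smul_inv_smul₀ hap.ne']
    have h1 : inner ℝ (e + (v : E n)) (RR K e y • e + (y : E n)) = supp K (e + (v : E n)) := by
      apply le_antisymm
      · exact Pool.Agent.Helper65.LR.le_supp hcb.comp hRK _
      · obtain ⟨z, hz, hzu⟩ := (Pool.Agent.Helper65.LR.supp_greatest hcb.comp ⟨_, hRK⟩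
          (e + (v : E n))).1
        rw [← hzu]
        have h2 := hsup z hz
        rw [huv, inner_smul_left, inner_smul_left] at h2
        simp only [conj_trivial] at h2
        exact le_of_mul_le_mul_left h2 hap
    have h2 := hD.Xuni _ (ev_ne he v) _ hRK h1
    unfold YY
    rw [← h2, pj_sl]
  · intro v
    unfold FF
    rw [hxR]
  · unfold lv
    exact hD.tc.comp_continuous (by fun_prop) fun v => ev_ne he v
  · intro v
    rw [hXs]
    exact hD.tup _ (ev_ne he v)
  · intro v
    have h1 := hD.tlo _ (ev_ne he v)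
    have h2 : supp K (-(e + (v : E n))) = supp K (e + ((-v : WW e) : E n)) := by
      have h3 : sg e (-(e + (v : E n))) = e + ((-v : WW e) : E n) := by
        unfold sg
        rw [inner_neg_right, inner_add_right, inner_e_W, real_inner_self_eq_norm_sq, he,
          Submodule.coe_neg]
        module
      have h4 : ∀ u x : E n, inner ℝ u (sg e x) = (inner ℝ (sg e u) x : ℝ) := by
        intro u x
        unfold sg
        rw [inner_sub_right, inner_sub_left, inner_smul_right, inner_smul_left,
          real_inner_comm e u]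
        simp only [conj_trivial]
        ring
      rw [← h3, ← Pool.Agent.Helper73.SY.supp_image h4, hK]
    rw [hXs, ← h2]
    exact h1

end Pool.Agent.Helper60.MI
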