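import Pool.Agent.Helper73.MI.Stmts

/-!
# A mirror symmetric body with quadratic squared half chord is an ellipsoid (project MP_a2630c_MI)
-/

open MeasureTheory Set Metric Real Filter Topology
open scoped RealInnerProductSpace ENNReal
open Pool.Agent.Helper16.Buoy (E cap IsEllipsoid Homothetic buoyancyBody)
open Pool.Agent.Helper73.HV (supp)
open Pool.Agent.Helper73.LR (CB vol GG Sol aff)
open Pool.Agent.Helper73.SY (CS Dat sg)
open Pool.Agent.Helper79.SY (WW AA cut sl inner_e_W norm_sl)

namespace Pool.Agent.Helper60.MI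

open Pool.Agent.Helper73.MI

variable {n : ℕ} {e : E n}

theorem pj_W (y : WW e) : pj e (y : E n) = y := by
  unfold pj
  exact Submodule.orthogonalProjectionOnto_mem_subspace_eq_self y

theorem pj_e : pj e e = 0 := by
  unfold pj
  exact Submodule.orthogonalProjectionOnto_orthogonalComplement_singleton_eq_zero e

theorem pj_sl (s : ℝ) (y : WW e) : pj e (s • e + (y : E n)) = y := by
  rw [map_add, map_smul, pj_e, pj_W, smul_zero, zero_add]

theorem inner_sl (he : ‖e‖ = 1) (s : ℝ) (y : WW e) : inner ℝ e (s • e + (y : E n)) = s := by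
  rw [inner_add_right, inner_smul_right, inner_e_W, real_inner_self_eq_norm_sq, he]
  ring

theorem decomp (he : ‖e‖ = 1) (x : E n) : (inner ℝ e x : ℝ) • e + (pj e x : E n) = x := by
  have hy : x - (inner ℝ e x : ℝ) • e ∈ WW e := by
    rw [Submodule.mem_orthogonal_singleton_iff_inner_right, inner_sub_right, inner_smul_right,
      real_inner_self_eq_norm_sq, he]
    ring
  have h1 : x = (inner ℝ e x : ℝ) • e + ((⟨_, hy⟩ : WW e) : E n) := by
    show x = _ + (x - _)
    abel
  have h2 : pj e x = ⟨_, hy⟩ := by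
    conv_lhs => rw [h1]
    exact pj_sl _ _
  rw [h2]
  exact h1.symm

/-- `s e + y ↦ s e + M y` -/
noncomputable def LM (e : E n) (M : WW e →L[ℝ] WW e) : E n →L[ℝ] E n :=
  (innerSL ℝ e).smulRight e + (WW e).subtypeL.comp (M.comp (pj e))

theorem LM_apply (M : WW e →L[ℝ] WW e) (x : E n) :
    LM e M x = (inner ℝ e x : ℝ) • e + (M (pj e x) : E n) := rfl

theorem LM_LM (he : ‖e‖ = 1) (M M' : WW e →L[ℝ] WW e) (h : ∀ y, M (M' y) = y) (x : E n) :
    LM e M (LM e M' x) = x := by
  rw [LM_apply, LM_apply, inner_sl he, pj_sl, h, decomp he]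

theorem norm_LM (he : ‖e‖ = 1) (M : WW e →L[ℝ] WW e) (x : E n) :
    ‖LM e M x‖ ^ 2 = (inner ℝ e x : ℝ) ^ 2 + ‖M (pj e x)‖ ^ 2 := by
  rw [LM_apply]
  exact norm_sl he _ _

theorem elm (hgeo : S_geo) : S_elm := by
  intro n K δ lam X t e hD he hK h
  obtain ⟨M, y0, c, hc, hP, hF⟩ := h
  obtain ⟨-, hint, -⟩ := hgeo hD he hK
  set L : E n ≃L[ℝ] E n := ContinuousLinearEquiv.equivOfInverse
    (LM e (M : WW e →L[ℝ] WW e)) (LM e (M.symm : WW e →L[ℝ] WW e))
    (fun x => LM_LM he _ _ (fun y => by simp) x) (fun x => LM_LM he _ _ (fun y => by simp) x)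
    with hL
  have hLa : ∀ x, L x = LM e (M : WW e →L[ℝ] WW e) x := fun x => rfl
  have hsc : √c ≠ 0 := (sqrt_pos.2 hc).ne'
  have hsq : √c ^ 2 = c := sq_sqrt hc.le
  set T : E n ≃ᵃ[ℝ] E n := ((LinearEquiv.smulOfNeZero ℝ (E n) (√c) hsc).trans
    L.symm.toLinearEquiv).toAffineEquiv.trans (AffineEquiv.constVAdd ℝ (E n) (y0 : E n)) with hT
  have hTa : ∀ z, T z = (y0 : E n) + L.symm (√c • z) := fun z => rfl
  have hcont : Continuous T := by
    have : (T : E n → E n) = fun z => (y0 : E n) + L.symm (√c • z) := funext hTa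
    rw [this]
    fun_prop
  have e1 : interior K = T '' ball (0 : E n) 1 := by
    ext x
    have k1 : x ∈ interior K ↔ ‖L (x - y0)‖ ^ 2 < c := by
      rw [hLa, norm_LM he, map_sub, pj_W, inner_sub_right, inner_e_W, sub_zero]
      conv_lhs => rw [← decomp he x]
      rw [hint]
      constructor
      · rintro ⟨h1, h2⟩
        rw [hF _ h1] at h2
        have : ‖(M : WW e →L[ℝ] WW e) (pj e x - y0)‖ = ‖M (pj e x - y0)‖ := rfl
        rw [this]
        linarith
      · intro h1
        have h0 : ‖(M : WW e →L[ℝ] WW e) (pj e x - y0)‖ = ‖M (pj e x - y0)‖ := rfl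
        rw [h0] at h1
        have h2 : pj e x ∈ PD K e := (hP _).2 (by nlinarith [sq_nonneg (inner ℝ e x : ℝ)])
        refine ⟨h2, ?_⟩
        rw [hF _ h2]
        linarith
    rw [k1]
    constructor
    · intro h1
      refine ⟨(√c)⁻¹ • L (x - y0), ?_, ?_⟩
      · rw [mem_ball_zero_iff, norm_smul, norm_inv, norm_of_nonneg (sqrt_nonneg c),
          inv_mul_lt_iff₀ (sqrt_pos.2 hc), mul_one]
        exact lt_of_pow_lt_pow_left₀ 2 (sqrt_nonneg c) (by rw [hsq]; exact h1)
      · rw [hTa, smul_inv_smul₀ hsc, ContinuousLinearEquiv.symm_apply_apply]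
        abel
    · rintro ⟨z, hz, rfl⟩
      rw [mem_ball_zero_iff] at hz
      rw [hTa, add_sub_cancel_left, ContinuousLinearEquiv.apply_symm_apply, norm_smul,
        norm_of_nonneg (sqrt_nonneg c), mul_pow, hsq]
      have : ‖z‖ ^ 2 < 1 := by nlinarith [norm_nonneg z]
      nlinarith
  refine ⟨T, ?_⟩
  have hcb := hD.cs.cb
  have e2 : closure (interior K) = K := by
    rw [hcb.conv.closure_interior_eq_closure_of_nonempty_interior hcb.int]
    exact hcb.comp.isClosed.closure_eq
  have e3 : closure (T '' ball (0 : E n) 1) = T '' closedBall (0 : E n) 1 := by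
    apply Subset.antisymm
    · refine closure_minimal (image_mono ball_subset_closedBall) ?_
      exact ((isCompact_closedBall (0 : E n) 1).image hcont).isClosed
    · rw [← closure_ball (0 : E n) one_ne_zero]
      exact image_closure_subset_closure_image hcont
  rw [← e3, ← e1, e2]

end Pool.Agent.Helper60.MI
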